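import Mathlib

/-!
# The explicit mobility edge: elementary inequalities

`σ₀ = 8 φ(0) d log d`, `E₀(σ) = |σ| √(2 log (σ₀ / |σ|))`.
-/

set_option linter.unusedVariables false

open MeasureTheory ProbabilityTheory Finset

namespace Pool.Agent.H989.ME

/-- the critical coupling -/
noncomputable def s0 (d : ℕ) : ℝ := 8 * gaussianPDFReal 0 1 0 * (d * Real.log d)

/-- the slope of the mobility edge -/
noncomputable def be (d : ℕ) (σ : ℝ) : ℝ := Real.sqrt (2 * Real.log (s0 d / |σ|))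

theorem pdf_eq (b : ℝ) :
    gaussianPDFReal 0 1 b = gaussianPDFReal 0 1 0 * Real.exp (-(b ^ 2 / 2)) := by
  unfold gaussianPDFReal
  simp only [NNReal.coe_one, mul_one, sub_zero]
  rw [mul_assoc, ← Real.exp_add]
  congr 2
  ring

theorem pdf0_pos : 0 < gaussianPDFReal 0 1 0 := gaussianPDFReal_pos 0 1 0 one_ne_zero

theorem s0_pos {d : ℕ} (hd : 2 ≤ d) : 0 < s0 d := by
  have h : (2:ℝ) ≤ d := by exact_mod_cast hd
  have h1 : 0 < Real.log d := Real.log_pos (by linarith)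
  have h2 := pdf0_pos
  unfold s0
  positivity

theorem s0_eq (d : ℕ) (b : ℝ) :
    8 * gaussianPDFReal 0 1 b * (d * Real.log d) = s0 d * Real.exp (-(b ^ 2 / 2)) := by
  rw [pdf_eq, s0]; ring

theorem be_nonneg (d : ℕ) (σ : ℝ) : 0 ≤ be d σ := Real.sqrt_nonneg _

/-- `σ₀ exp (-β² / 2) ≤ |σ|` -/
theorem be_le {d : ℕ} (hd : 2 ≤ d) {σ : ℝ} (hσ : 0 < |σ|) :
    s0 d * Real.exp (-(be d σ ^ 2 / 2)) ≤ |σ| := by
  have h0 := s0_pos hd
  have hq : 0 < s0 d / |σ| := div_pos h0 hσ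
  rcases le_or_gt 0 (Real.log (s0 d / |σ|)) with h | h
  · rw [be, Real.sq_sqrt (by linarith), mul_div_cancel_left₀ _ (two_ne_zero), Real.exp_neg,
      Real.exp_log hq, inv_div, mul_div_cancel₀ _ h0.ne']
  · have h1 : be d σ = 0 := by
      rw [be]; exact Real.sqrt_eq_zero_of_nonpos (by linarith)
    rw [h1]
    simp only [ne_eq, OfNat.ofNat_ne_zero, not_false_eq_true, zero_pow, zero_div, neg_zero,
      Real.exp_zero, mul_one]
    have h2 : s0 d / |σ| < 1 := by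
      by_contra h3
      exact absurd (Real.log_nonneg (not_lt.mp h3)) (not_le.mpr h)
    rw [div_lt_one hσ] at h2
    exact h2.le

/-- `|σ| = σ₀ exp (-β² / 2)` if `β > 0` -/
theorem be_eq {d : ℕ} (hd : 2 ≤ d) {σ : ℝ} (hσ : 0 < |σ|) (hb : 0 < be d σ) :
    |σ| = s0 d * Real.exp (-(be d σ ^ 2 / 2)) := by
  have h0 := s0_pos hd
  have hq : 0 < s0 d / |σ| := div_pos h0 hσ
  have h : 0 < 2 * Real.log (s0 d / |σ|) := Real.sqrt_pos.mp hb
  rw [be, Real.sq_sqrt h.le, mul_div_cancel_left₀ _ (two_ne_zero), Real.exp_neg,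
      Real.exp_log hq, inv_div, mul_div_cancel₀ _ h0.ne']

/-- localized side -/
theorem loc_side {d : ℕ} (hd : 2 ≤ d) {σ ε : ℝ} (hσ : 0 < |σ|) (hε : 0 < ε) :
    (1 + (Real.exp (ε ^ 2 / 2) - 1)) * (8 * gaussianPDFReal 0 1 (be d σ + ε)) * (d * Real.log d)
      ≤ |σ| := by
  have h1 := be_le hd hσ
  have h2 := be_nonneg d σ
  have h3 : (1 + (Real.exp (ε ^ 2 / 2) - 1)) * (8 * gaussianPDFReal 0 1 (be d σ + ε)) *
      (d * Real.log d) = Real.exp (ε ^ 2 / 2) *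
      (8 * gaussianPDFReal 0 1 (be d σ + ε) * (d * Real.log d)) := by ring
  rw [h3, s0_eq]
  refine le_trans ?_ h1
  calc Real.exp (ε ^ 2 / 2) * (s0 d * Real.exp (-((be d σ + ε) ^ 2 / 2)))
      = s0 d * Real.exp (ε ^ 2 / 2 + -((be d σ + ε) ^ 2 / 2)) := by rw [Real.exp_add]; ring
    _ ≤ s0 d * Real.exp (-(be d σ ^ 2 / 2)) := by
        refine mul_le_mul_of_nonneg_left (Real.exp_le_exp.mpr ?_) (s0_pos hd).le
        nlinarith [mul_nonneg h2 hε.le]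

/-- the spread side -/
theorem spr_side {d : ℕ} (hd : 2 ≤ d) {σ ε b : ℝ} (hσ : 0 < |σ|) (hε : 0 < ε) (hb : 0 ≤ b)
    (hbe : b ≤ be d σ - ε / 2) (hε2 : ε ≤ be d σ) :
    |σ| ≤ (1 - (1 - Real.exp (-(ε ^ 2 / 4)))) * (8 * gaussianPDFReal 0 1 b) * (d * Real.log d) := by
  have h1 := be_eq hd hσ (lt_of_lt_of_le hε hε2)
  have h3 : (1 - (1 - Real.exp (-(ε ^ 2 / 4)))) * (8 * gaussianPDFReal 0 1 b) *
      (d * Real.log d) = Real.exp (-(ε ^ 2 / 4)) *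
      (8 * gaussianPDFReal 0 1 b * (d * Real.log d)) := by ring
  rw [h3, s0_eq]
  calc |σ| = s0 d * Real.exp (-(be d σ ^ 2 / 2)) := h1
    _ ≤ s0 d * Real.exp (-(ε ^ 2 / 4) + -(b ^ 2 / 2)) := by
        refine mul_le_mul_of_nonneg_left (Real.exp_le_exp.mpr ?_) (s0_pos hd).le
        have h4 : b ^ 2 ≤ (be d σ - ε / 2) ^ 2 := pow_le_pow_left₀ hb hbe 2
        nlinarith [mul_le_mul_of_nonneg_left hε2 hε.le]
    _ = _ := by rw [Real.exp_add]; ring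

/-- the slope is bounded if `|σ| ≥ exp (-B² / 2) σ₀` -/
theorem be_le_of {d : ℕ} (hd : 2 ≤ d) {σ B : ℝ} (hσ : 0 < |σ|) (hB : 0 ≤ B)
    (h : Real.exp (-(B ^ 2 / 2)) * s0 d ≤ |σ|) : be d σ ≤ B := by
  have h0 := s0_pos hd
  rw [be, ← Real.sqrt_sq hB]
  refine Real.sqrt_le_sqrt ?_
  have h1 : s0 d / |σ| ≤ Real.exp (B ^ 2 / 2) := by
    rw [div_le_iff₀ hσ]
    have h2 := mul_le_mul_of_nonneg_left h (Real.exp_pos (B ^ 2 / 2)).le
    rw [← mul_assoc, ← Real.exp_add] at h2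
    simpa using h2
  have h3 : Real.log (s0 d / |σ|) ≤ B ^ 2 / 2 := by
    rw [Real.log_le_iff_le_exp (div_pos h0 hσ)]; exact h1
  linarith

end Pool.Agent.H989.ME
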