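import Pool.Agent.H989.SB.FinG3
import Pool.Agent.H989.ME.Edge

/-!
# Spreading up to the explicit mobility edge

From `sb_gauss3` (one slope `b`) to all slopes below `min (β(σ)) B - ε`, by a finite grid of slopes.
-/

set_option linter.unusedVariables false

open MeasureTheory ProbabilityTheory Finset

namespace Pool.Agent.H989.ME

open Pool.Agent.H989.SB

theorem fin3_mono {ν : Measure ℝ} {d : ℕ} (hd : 1 ≤ d) {σ : ℝ} {I I' : ℝ → Prop} {c c' ε ε' : ℝ}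
    (hI : ∀ E, I' E → I E) (hc : c' ≤ c) (hε : ε ≤ ε') (h : Fin3 ν d σ I c ε) :
    Fin3 ν d σ I' c' ε' := by
  have hl : 0 ≤ Real.log (d:ℝ) := Real.log_nonneg (by exact_mod_cast hd)
  have hX : 0 ≤ Real.log (d:ℝ) / Real.log (Real.log d) ^ 2 := div_nonneg hl (sq_nonneg _)
  have hY : 0 ≤ (Real.log (d:ℝ) / Real.log (Real.log d)) ^ 2 := sq_nonneg _
  have h1 : c' * Real.log (d:ℝ) / Real.log (Real.log d) ^ 2 ≤
      c * Real.log (d:ℝ) / Real.log (Real.log d) ^ 2 := by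
    rw [mul_div_assoc, mul_div_assoc]
    exact mul_le_mul_of_nonneg_right hc hX
  have h2 : c' * (Real.log (d:ℝ) / Real.log (Real.log d)) ^ 2 ≤
      c * (Real.log (d:ℝ) / Real.log (Real.log d)) ^ 2 := mul_le_mul_of_nonneg_right hc hY
  refine ⟨fun a => ?_, fun Λ => ?_⟩
  · obtain ⟨G, hG, hP, hG3⟩ := h.1 a
    refine ⟨G, hG, by linarith, fun ω hω n u E hu hE hIE hB => ?_⟩
    refine (hG3 ω hω n u E hu hE (fun j => hI _ (hIE j)) fun j => ?_).trans hε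
    obtain ⟨B, hB1, hB2⟩ := hB j
    refine ⟨B, fun y hy => (hB1 y hy).trans h1, le_trans (Real.exp_le_exp.mpr ?_) hB2⟩
    linarith
  · obtain ⟨G, hG, hP, hG3⟩ := h.2 Λ
    refine ⟨G, hG, by linarith, fun ω hω n u E hu hE hIE hB => ?_⟩
    refine (hG3 ω hω n u E hu hE (fun j => hI _ (hIE j)) fun j => ?_).trans
      (mul_le_mul_of_nonneg_right hε (Nat.cast_nonneg _))
    obtain ⟨S, hS1, hS2, hS3⟩ := hB j
    exact ⟨S, hS1, hS2.trans (Real.exp_le_exp.mpr h2), hε.trans hS3⟩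

theorem fin3_false {ν : Measure ℝ} [IsProbabilityMeasure ν] {d : ℕ} {σ : ℝ} {I : ℝ → Prop}
    {c ε : ℝ} (hε : 0 ≤ ε) (hI : ∀ E, ¬ I E) : Fin3 ν d σ I c ε := by
  have hp : (lawZ ν d).real Set.univ = 1 := by
    unfold lawZ
    exact probReal_univ
  refine ⟨fun a => ⟨Set.univ, MeasurableSet.univ, by rw [hp]; linarith,
      fun ω hω n u E hu hE hIE hB => ?_⟩,
    fun Λ => ⟨Set.univ, MeasurableSet.univ, by rw [hp]; linarith,
      fun ω hω n u E hu hE hIE hB => ?_⟩⟩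
  · rcases Nat.eq_zero_or_pos n with h | h
    · subst h; simpa using hε
    · exact absurd (hIE ⟨0, h⟩) (hI _)
  · rcases Nat.eq_zero_or_pos n with h | h
    · subst h; simp; positivity
    · exact absurd (hIE ⟨0, h⟩) (hI _)

theorem grid {ε δ : ℝ} (hε : 0 < ε) (hε1 : ε < 1) (hδ : 0 ≤ δ) (K : ℕ) :
    ∃ c : ℝ, 0 < c ∧ ∃ d₀ : ℕ, 1 ≤ d₀ ∧ ∀ i : ℕ, i < K → ∀ d : ℕ, d₀ ≤ d → ∀ σ : ℝ,
      2 * (d : ℝ) ≤ |σ| →
      |σ| ≤ (1 - ε) * (8 * gaussianPDFReal 0 1 (i * δ)) * (d * Real.log d) →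
      Fin3 (gaussianReal 0 1) d σ (fun E => |E| ≤ i * δ * |σ|) c ε := by
  induction K with
  | zero => exact ⟨1, one_pos, 1, le_rfl, fun i hi => absurd hi (Nat.not_lt_zero _)⟩
  | succ K ih =>
    obtain ⟨c, hc, d₀, hd₀, h⟩ := ih
    obtain ⟨c', hc', d₀', h'⟩ := sb_gauss3 (b := K * δ) (mul_nonneg (Nat.cast_nonneg _) hδ) hε hε1
    refine ⟨min c c', lt_min hc hc', max d₀ d₀', le_max_of_le_left hd₀, fun i hi d hd σ h1 h2 => ?_⟩
    have hd1 : 1 ≤ d := hd₀.trans ((le_max_left _ _).trans hd)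
    rcases Nat.lt_succ_iff_lt_or_eq.mp hi with hi | hi
    · exact fin3_mono hd1 (fun E hE => hE) (min_le_left _ _) le_rfl
        (h i hi d ((le_max_left _ _).trans hd) σ h1 h2)
    · subst hi
      exact fin3_mono hd1 (fun E hE => hE) (min_le_right _ _) le_rfl
        (h' d ((le_max_right _ _).trans hd) σ h1 h2)

/-- spreading below the explicit edge -/
theorem spr_edge {B ε : ℝ} (hB : 0 ≤ B) (hε : 0 < ε) :
    ∃ c : ℝ, 0 < c ∧ ∃ d₀ : ℕ, ∀ d : ℕ, d₀ ≤ d → ∀ σ : ℝ, 2 * (d : ℝ) ≤ |σ| →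
      Fin3 (gaussianReal 0 1) d σ (fun E => |E| ≤ (min (be d σ) B - ε) * |σ|) c ε := by
  have he : 0 < 1 - Real.exp (-(ε ^ 2 / 4)) := by
    have : Real.exp (-(ε ^ 2 / 4)) < 1 := by
      rw [Real.exp_lt_one_iff]; nlinarith [sq_pos_of_pos hε]
    linarith
  obtain ⟨ε₁, hε₁⟩ : ∃ x, x = min ε (1 - Real.exp (-(ε ^ 2 / 4))) := ⟨_, rfl⟩
  have h0 : 0 < ε₁ := by rw [hε₁]; exact lt_min hε he
  have h1 : ε₁ < 1 := by
    rw [hε₁]
    refine lt_of_le_of_lt (min_le_right _ _) ?_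
    have := Real.exp_pos (-(ε ^ 2 / 4))
    linarith
  have h1ε : ε₁ ≤ ε := by rw [hε₁]; exact min_le_left _ _
  have h1e : ε₁ ≤ 1 - Real.exp (-(ε ^ 2 / 4)) := by rw [hε₁]; exact min_le_right _ _
  obtain ⟨c, hc, d₀, hd₀, h⟩ := grid h0 h1 (δ := ε / 2) (by linarith) (⌊B / (ε / 2)⌋₊ + 3)
  refine ⟨c, hc, max d₀ 2, fun d hd σ hσ => ?_⟩
  have hd2 : 2 ≤ d := (le_max_right _ _).trans hd
  have hd2' : (2:ℝ) ≤ d := by exact_mod_cast hd2
  have hs : 0 < |σ| := by linarith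
  rcases lt_or_ge (min (be d σ) B) ε with hlt | hge
  · refine fin3_false hε.le fun E hE => ?_
    have := abs_nonneg E
    have h3 : (min (be d σ) B - ε) * |σ| < 0 := mul_neg_of_neg_of_pos (by linarith) hs
    linarith
  · have hbe : ε ≤ be d σ := hge.trans (min_le_left _ _)
    obtain ⟨i, hi⟩ : ∃ i : ℕ, i = ⌊(min (be d σ) B - ε) / (ε / 2)⌋₊ + 1 := ⟨_, rfl⟩
    have hq : 0 ≤ (min (be d σ) B - ε) / (ε / 2) := div_nonneg (by linarith) (by linarith)
    have hi1 : (min (be d σ) B - ε) ≤ i * (ε / 2) := by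
      have := Nat.lt_floor_add_one ((min (be d σ) B - ε) / (ε / 2))
      rw [← div_le_iff₀ (by linarith : (0:ℝ) < ε / 2), hi]
      push_cast
      exact this.le
    have hi2 : i * (ε / 2) ≤ be d σ - ε / 2 := by
      have h4 := Nat.floor_le hq
      have h5 : (⌊(min (be d σ) B - ε) / (ε / 2)⌋₊ : ℝ) * (ε / 2) ≤ min (be d σ) B - ε := by
        rwa [← le_div_iff₀ (by linarith : (0:ℝ) < ε / 2)]
      have h6 : min (be d σ) B ≤ be d σ := min_le_left _ _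
      rw [hi]; push_cast
      linarith
    have hi3 : i < ⌊B / (ε / 2)⌋₊ + 3 := by
      have : ⌊(min (be d σ) B - ε) / (ε / 2)⌋₊ ≤ ⌊B / (ε / 2)⌋₊ := by
        refine Nat.floor_le_floor ?_
        refine div_le_div_of_nonneg_right ?_ (by linarith)
        have h6 : min (be d σ) B ≤ B := min_le_right _ _
        linarith
      omega
    have h7 := spr_side hd2 hs hε (b := i * (ε / 2)) (by positivity) hi2 hbe
    refine fin3_mono (hd₀.trans ((le_max_left _ _).trans hd)) (fun E hE => ?_) le_rfl h1ε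
      (h i hi3 d ((le_max_left _ _).trans hd) σ hσ (h7.trans ?_))
    · exact hE.trans (mul_le_mul_of_nonneg_right hi1 hs.le)
    · have hp : 0 ≤ 8 * gaussianPDFReal 0 1 (i * (ε / 2)) := by
        have := gaussianPDFReal_nonneg 0 1 (i * (ε / 2))
        linarith
      have hl : 0 ≤ (d:ℝ) * Real.log d :=
        mul_nonneg (by linarith) (Real.log_nonneg (by linarith))
      refine mul_le_mul_of_nonneg_right (mul_le_mul_of_nonneg_right ?_ hp) hl
      linarith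

end Pool.Agent.H989.ME
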