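import Pool.Agent.H121.SH.FinB
import Pool.Agent.H989.ME.Edge

/-!
# The localized side of the explicit mobility edge

From `fin_curve` (helper121) with the slope `β(σ) + ε`.
-/

set_option linter.unusedVariables false

open MeasureTheory ProbabilityTheory Finset

namespace Pool.Agent.H989.ME

open Pool.Agent.H121.SH
open Pool.Agent.H987.Z (SqS IsSp)
open Pool.Agent.H121.GA (SAd)

theorem loc_edge {B ε : ℝ} (hB : 0 ≤ B) (hε : 0 < ε) :
    ∃ (d₀ : ℕ) (γ : ℝ), 2 ≤ d₀ ∧ 0 < γ ∧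
      (∀ (d : ℕ) (σ : ℝ) (ξ : (Fin d → ℤ) → ℝ), SAd (opG σ ξ) ∧
        ∀ f : (Fin d → ℤ) → ℂ, SqS f → ∃ m : Measure ℝ, IsSp (opG σ ξ) f m) ∧
      (∀ d : ℕ, d₀ ≤ d → ∀ σ : ℝ, (1 + ε) * s0 d ≤ |σ| →
        ∀ᵐ ξ ∂(Measure.infinitePi fun _ : Fin d → ℤ => gaussianReal 0 1),
          LocIF (opG σ ξ) γ (ra 0) Set.univ) ∧
      (∀ d : ℕ, d₀ ≤ d → ∀ σ : ℝ, σ ≠ 0 → be d σ ≤ B →
        ∀ᵐ ξ ∂(Measure.infinitePi fun _ : Fin d → ℤ => gaussianReal 0 1),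
          LocIF (opG σ ξ) γ (ra 0) {E | (be d σ + ε) * |σ| ≤ |E|}) ∧
      ∀ M η : ℝ, 0 < M → 0 < η → ∃ R : ℕ, ∀ d : ℕ, d₀ ≤ d → ∀ (σ b : ℝ), σ ≠ 0 →
        ((b = be d σ + ε ∧ be d σ ≤ B) ∨ (b = 0 ∧ (1 + ε) * s0 d ≤ |σ|)) →
        ∀ a : Fin d → ℤ, ∃ G : Set ((Fin d → ℤ) → ℝ), MeasurableSet G ∧
          1 - η ≤ (Measure.infinitePi fun _ : Fin d → ℤ => gaussianReal 0 1).real G ∧
          ∀ ξ ∈ G, ∀ (n : ℕ) (u : Fin n → lp (fun _ : Fin d → ℤ => ℂ) 2) (E : Fin n → ℝ),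
            Orthonormal ℂ u → (∀ j x, opG σ ξ (u j) x = E j * u j x) →
            (∀ j, b * |σ| ≤ |E j| ∧ |E j| ≤ M * |σ|) →
            (∀ j, ∃ A : Finset (Fin d → ℤ), (∀ y ∈ A, (R : ℝ) < ∑ i, |(y i : ℝ)|) ∧
              η ≤ ∑ y ∈ A, ‖u j (a + y)‖ ^ 2) →
            ∑ j, ‖u j a‖ ^ 2 ≤ η := by
  obtain ⟨ε₂, hε₂⟩ : ∃ x, x = min ε (Real.exp (ε ^ 2 / 2) - 1) := ⟨_, rfl⟩
  have he : 0 < Real.exp (ε ^ 2 / 2) - 1 := by
    have := Real.add_one_lt_exp (x := ε ^ 2 / 2) (by positivity)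
    have h2 : 0 < ε ^ 2 / 2 := by positivity
    linarith
  have h0 : 0 < ε₂ := by rw [hε₂]; exact lt_min hε he
  have h1 : ε₂ ≤ ε := by rw [hε₂]; exact min_le_left _ _
  have h2 : ε₂ ≤ Real.exp (ε ^ 2 / 2) - 1 := by rw [hε₂]; exact min_le_right _ _
  obtain ⟨d₀, γ, hγ, hsa, hloc, hrad⟩ := fin_curve (B + ε) ε₂ (by linarith) h0
  have hA : ∀ d : ℕ, 2 ≤ d → ∀ σ : ℝ, (1 + ε) * s0 d ≤ |σ| →
      (1 + ε₂) * (8 * gaussianPDFReal 0 1 0) * (d * Real.log d) ≤ |σ| := by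
    intro d hd σ h
    have hs := s0_pos hd
    refine le_trans ?_ h
    have : (1 + ε₂) * (8 * gaussianPDFReal 0 1 0) * (d * Real.log d) = (1 + ε₂) * s0 d := by
      rw [s0]; ring
    rw [this]
    exact mul_le_mul_of_nonneg_right (by linarith) hs.le
  have hA' : ∀ d : ℕ, 2 ≤ d → ∀ σ : ℝ, σ ≠ 0 →
      (1 + ε₂) * (8 * gaussianPDFReal 0 1 (be d σ + ε)) * (d * Real.log d) ≤ |σ| := by
    intro d hd σ h
    refine le_trans ?_ (loc_side hd (abs_pos.mpr h) hε)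
    have hp : 0 ≤ 8 * gaussianPDFReal 0 1 (be d σ + ε) := by
      have := gaussianPDFReal_nonneg 0 1 (be d σ + ε)
      linarith
    have hd' : (2:ℝ) ≤ d := by exact_mod_cast hd
    have hl : 0 ≤ (d:ℝ) * Real.log d :=
      mul_nonneg (by linarith) (Real.log_nonneg (by linarith))
    exact mul_le_mul_of_nonneg_right (mul_le_mul_of_nonneg_right (by linarith) hp) hl
  refine ⟨max d₀ 2, γ, le_max_right _ _, hγ, hsa, fun d hd σ hσ => ?_, fun d hd σ hσ hb => ?_,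
    fun M η hM hη => ?_⟩
  · have h := hloc 0 le_rfl (by linarith) d ((le_max_left _ _).trans hd) σ
      (hA d ((le_max_right _ _).trans hd) σ hσ)
    have hset : {E : ℝ | 0 * |σ| ≤ |E|} = Set.univ := by
      ext E; simp
    rw [hset] at h
    exact h
  · have := be_nonneg d σ
    exact hloc (be d σ + ε) (by linarith) (by linarith) d ((le_max_left _ _).trans hd) σ
      (hA' d ((le_max_right _ _).trans hd) σ hσ)
  · -- radii
    obtain ⟨R, hR⟩ := hrad M (min η (η ^ 2)) hM (lt_min hη (by positivity))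
    refine ⟨R, fun d hd σ b hσ hcase a => ?_⟩
    have hd0 := (le_max_left d₀ 2).trans hd
    have hd2 := (le_max_right d₀ 2).trans hd
    have hb0 := be_nonneg d σ
    have key : 0 ≤ b ∧ b ≤ B + ε ∧
        (1 + ε₂) * (8 * gaussianPDFReal 0 1 b) * (d * Real.log d) ≤ |σ| := by
      rcases hcase with ⟨rfl, hB'⟩ | ⟨rfl, hs⟩
      · exact ⟨by linarith, by linarith, hA' d hd2 σ hσ⟩
      · exact ⟨le_rfl, by linarith, hA d hd2 σ hs⟩
    obtain ⟨G, hG, hP, hG3⟩ := hR b key.1 key.2.1 d hd0 σ key.2.2 a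
    have hm1 : min η (η ^ 2) ≤ η := min_le_left _ _
    have hm2 : min η (η ^ 2) ≤ η ^ 2 := min_le_right _ _
    refine ⟨G, hG, by linarith, fun ξ hξ n u E hu hE hEM hA3 => ?_⟩
    classical
    choose A hA1 hA2 using hA3
    have h4 := hG3 ξ hξ n u E hu hE hEM (univ.biUnion A) (fun y hy => by
      obtain ⟨j, -, hj⟩ := mem_biUnion.mp hy
      have := hA1 j y hj
      have h5 : ((R : ℤ) : ℝ) < ((∑ i, |y i| : ℤ) : ℝ) := by push_cast; exact this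
      exact_mod_cast h5)
    have h5 : η * ∑ j, ‖u j a‖ ^ 2 ≤
        ∑ j, ∑ y ∈ univ.biUnion A, ‖u j a‖ ^ 2 * ‖u j (a + y)‖ ^ 2 := by
      rw [Finset.mul_sum]
      refine sum_le_sum fun j _ => ?_
      rw [← Finset.mul_sum, mul_comm]
      refine mul_le_mul_of_nonneg_left ?_ (by positivity)
      refine (hA2 j).trans (sum_le_sum_of_subset_of_nonneg ?_ fun _ _ _ => by positivity)
      exact subset_biUnion_of_mem A (mem_univ j)
    have h6 : η * ∑ j, ‖u j a‖ ^ 2 ≤ η * η := by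
      calc _ ≤ _ := h5
        _ ≤ _ := h4
        _ ≤ η ^ 2 := hm2
        _ = η * η := by ring
    exact le_of_mul_le_mul_left h6 hη

end Pool.Agent.H989.ME
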